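import Pool.Agent.helper62.MS.SpecG

/-!
# Row ms:HDV (MP_07c750_an): large deviations along stable arcs
-/

set_option autoImplicit false

open scoped MatrixGroups ContDiff Topology UpperHalfPlane ComplexConjugate
open UpperHalfPlane MeasureTheory Filter Set

namespace Pool.Agent.MS

open Pool.Agent.RS

/-! ## The time integral over the past -/

/-- the integral over the past of length `T` -/
noncomputable def HDV_E (h : ℍ → ℝ) (T : ℝ) (g : SL(2, ℝ)) : ℝ := ∫ t in (0 : ℝ)..T, h ((g * aM (-t)) • I)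

theorem HDV_cont (hGLC : GLC_stmt) (h : ℍ → ℝ) (hh : Continuous h) (T : ℝ) : Continuous (HDV_E h T) := by
  haveI := hGLC.1
  haveI := hGLC.2.1
  have ha : Continuous aM := hGLC.2.2.2.1
  refine intervalIntegral.continuous_parametric_intervalIntegral_of_continuous' ?_ 0 T
  show Continuous fun p : SL(2, ℝ) × ℝ => h ((p.1 * aM (-p.2)) • I)
  exact hh.comp ((continuous_fst.mul (ha.comp continuous_snd.neg)).smul continuous_const)

theorem HDV_J (x : ℝ) : nM x * kM (Real.pi / 2) = kM (Real.pi / 2) * lM (-x) := by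
  apply Subtype.ext
  show !![1, x; 0, 1] * !![Real.cos (Real.pi / 2), Real.sin (Real.pi / 2); -Real.sin (Real.pi / 2), Real.cos (Real.pi / 2)] =
    !![Real.cos (Real.pi / 2), Real.sin (Real.pi / 2); -Real.sin (Real.pi / 2), Real.cos (Real.pi / 2)] * !![1, 0; -x, 1]
  rw [Real.cos_pi_div_two, Real.sin_pi_div_two]
  ext i j
  fin_cases i <;> fin_cases j <;> simp [Matrix.mul_apply, Fin.sum_univ_two]

theorem HDV_pt (hGLC : GLC_stmt) (g : SL(2, ℝ)) (x t : ℝ) :
    ((g * nM x * aM (-t)) • I : ℍ) = (g * kM (Real.pi / 2) * lM (-x) * aM t) • I := by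
  obtain ⟨-, -, -, -, -, -, -, -, -, -, -, -, -, -, -, hkI, -, -, -, hka⟩ := hGLC
  have h1 : (g * nM x * aM (-t)) • I = (g * nM x * aM (-t)) • ((kM (Real.pi / 2)) • I : ℍ) := by rw [hkI]
  rw [h1, smul_smul]
  have h2 : g * nM x * aM (-t) * kM (Real.pi / 2) = g * kM (Real.pi / 2) * lM (-x) * aM t := by
    rw [mul_assoc (g * nM x), ← hka t, ← mul_assoc, mul_assoc g (nM x), HDV_J, ← mul_assoc]
  rw [h2]

theorem HDV_unit (hGLC : GLC_stmt) (h : ℍ → ℝ) (θ T B : ℝ)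
    (hB : ∀ g : SL(2, ℝ), ∫ v in (0 : ℝ)..1, Real.exp (θ * ∫ t in (0 : ℝ)..T, (fun z => -h z) ((g * lM v * aM t) • I)) ≤ B)
    (g : SL(2, ℝ)) (a : ℝ) :
    ∫ x in a..(a + 1), Real.exp (-(θ * HDV_E h T (g * nM x))) ≤ B := by
  have hl : ∀ s t, lM (s + t) = lM s * lM t := hGLC.2.2.2.2.2.2.2.2.2.2.2.2.1
  set F : ℝ → ℝ := fun v => Real.exp (θ * ∫ t in (0 : ℝ)..T,
    (fun z => -h z) ((g * kM (Real.pi / 2) * lM (-(a + 1)) * lM v * aM t) • I)) with hF
  have h1 : ∀ x : ℝ, Real.exp (-(θ * HDV_E h T (g * nM x))) = F (a + 1 - x) := by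
    intro x
    rw [hF]
    show Real.exp (-(θ * ∫ t in (0 : ℝ)..T, h ((g * nM x * aM (-t)) • I))) = Real.exp (θ * ∫ t in (0 : ℝ)..T,
      -h ((g * kM (Real.pi / 2) * lM (-(a + 1)) * lM (a + 1 - x) * aM t) • I))
    rw [intervalIntegral.integral_neg, mul_neg]
    have h2 : ∀ t : ℝ, ((g * nM x * aM (-t)) • I : ℍ) =
        (g * kM (Real.pi / 2) * lM (-(a + 1)) * lM (a + 1 - x) * aM t) • I := by
      intro t
      rw [HDV_pt hGLC]
      have h3 : lM (-x) = lM (-(a + 1)) * lM (a + 1 - x) := by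
        rw [← hl]
        have h4 : -(a + 1) + (a + 1 - x) = -x := by ring
        rw [h4]
      rw [h3, ← mul_assoc]
    simp only [h2]
  simp only [h1]
  rw [intervalIntegral.integral_comp_sub_left (fun x => F x) (a + 1)]
  have h5 : a + 1 - (a + 1) = 0 := by ring
  have h6 : a + 1 - a = 1 := by ring
  rw [h5, h6]
  exact hB _

theorem HDV_sum (G : ℝ → ℝ) (hG : Continuous G) (B : ℝ) (hB : ∀ a : ℝ, ∫ x in a..(a + 1), G x ≤ B) (n : ℕ) (b : ℝ) :
    ∫ x in b..(b + n), G x ≤ n * B := by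
  have h1 := intervalIntegral.sum_integral_adjacent_intervals (f := G) (μ := volume) (a := fun k : ℕ => b + (k : ℝ)) (n := n)
    (fun k _ => hG.intervalIntegrable _ _)
  have h2 : ∫ x in b..(b + n), G x = ∑ k ∈ Finset.range n, ∫ x in (b + (k : ℝ))..(b + ((k + 1 : ℕ) : ℝ)), G x := by
    rw [h1]
    simp only [Nat.cast_zero, add_zero]
  rw [h2]
  refine (Finset.sum_le_card_nsmul (Finset.range n) _ B ?_).trans ?_
  · intro k _
    have h3 := hB (b + k)
    rw [Nat.cast_add, Nat.cast_one, ← add_assoc]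
    exact h3
  · rw [Finset.card_range, nsmul_eq_mul]

/-- Chebyshev -/
theorem HDV_cheb (f : ℝ → ℝ) (hf : Continuous f) (θ m B : ℝ) (b : ℝ) (n : ℕ) (hθ : 0 ≤ θ)
    (hB : ∀ a : ℝ, ∫ x in a..(a + 1), Real.exp (-(θ * f x)) ≤ B) :
    volume ({u : ℝ | f u ≤ m} ∩ Ioc b (b + n)) ≤ ENNReal.ofReal (Real.exp (θ * m) * (n * B)) := by
  have hG : Continuous fun x => Real.exp (-(θ * f x)) := Real.continuous_exp.comp (continuous_const.mul hf).neg
  have h1 := HDV_sum _ hG B hB n b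
  have hbn : b ≤ b + n := by
    have : (0 : ℝ) ≤ n := Nat.cast_nonneg n
    linarith
  rw [intervalIntegral.integral_of_le hbn] at h1
  have h2 := mul_meas_ge_le_integral_of_nonneg (μ := volume.restrict (Ioc b (b + n))) (f := fun x => Real.exp (-(θ * f x)))
    (Eventually.of_forall fun x => (Real.exp_pos _).le)
    (hG.integrableOn_Ioc) (Real.exp (-(θ * m)))
  have hS : MeasurableSet {u : ℝ | f u ≤ m} := (isClosed_le hf continuous_const).measurableSet
  have h3 : {u : ℝ | f u ≤ m} ⊆ {x : ℝ | Real.exp (-(θ * m)) ≤ Real.exp (-(θ * f x))} := by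
    intro x hx
    have hx' : f x ≤ m := hx
    show Real.exp (-(θ * m)) ≤ Real.exp (-(θ * f x))
    exact Real.exp_le_exp.2 (neg_le_neg (mul_le_mul_of_nonneg_left hx' hθ))
  rw [← Measure.restrict_apply hS]
  refine (measure_mono h3).trans ?_
  have hfin : (volume.restrict (Ioc b (b + n))) {x : ℝ | Real.exp (-(θ * m)) ≤ Real.exp (-(θ * f x))} ≠ ⊤ :=
    measure_ne_top _ _
  rw [← ENNReal.ofReal_toReal hfin]
  refine ENNReal.ofReal_le_ofReal ?_
  have h4 := h2.trans h1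
  have h5 : Real.exp (θ * m) * Real.exp (-(θ * m)) = 1 := by
    rw [← Real.exp_add]
    simp
  have h6 := mul_le_mul_of_nonneg_left h4 (Real.exp_pos (θ * m)).le
  rw [← mul_assoc, h5, one_mul] at h6
  exact h6

/-! ## The group -/

theorem HDV_ent (z : ℍ) (θ : ℝ) :
    (toSL2R z * kM θ).1 0 0 = √z.im * Real.cos θ + z.re / √z.im * (-Real.sin θ) ∧
    (toSL2R z * kM θ).1 0 1 = √z.im * Real.sin θ + z.re / √z.im * Real.cos θ ∧
    (toSL2R z * kM θ).1 1 0 = 1 / √z.im * (-Real.sin θ) ∧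
    (toSL2R z * kM θ).1 1 1 = 1 / √z.im * Real.cos θ := by
  have h : (toSL2R z * kM θ).1 = !![√z.im, z.re / √z.im; 0, 1 / √z.im] *
      !![Real.cos θ, Real.sin θ; -Real.sin θ, Real.cos θ] := rfl
  rw [h]
  refine ⟨?_, ?_, ?_, ?_⟩ <;> simp [Matrix.mul_apply, Fin.sum_univ_two]

theorem HDV_mem (z : ℍ) (θ ρ : ℝ) (h1 : ∀ i j : Fin 2, |(toSL2R z * kM θ).1 i j| ≤ 3)
    (h2 : |(toSL2R z * kM θ).1 1 0| ≤ ρ) :
    (1 / 18 ≤ z.im ∧ z.im ≤ 18 ∧ |z.re| ≤ 18) ∧ |Real.sin θ| ≤ 5 * ρ := by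
  obtain ⟨e00, e01, e10, e11⟩ := HDV_ent z θ
  have hy : 0 < z.im := z.im_pos
  set r : ℝ := √z.im with hr
  have hr0 : 0 < r := Real.sqrt_pos.2 hy
  have hrr : r * r = z.im := Real.mul_self_sqrt hy.le
  have a00 := h1 0 0
  have a01 := h1 0 1
  have a10 := h1 1 0
  have a11 := h1 1 1
  rw [e00] at a00
  rw [e01] at a01
  rw [e10] at a10 h2
  rw [e11] at a11
  have hsc := Real.sin_sq_add_cos_sq θ
  have sq : ∀ x : ℝ, |x| ≤ 3 → x ^ 2 ≤ 9 := fun x hx => by
    have := abs_le.1 hx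
    nlinarith [this.1, this.2]
  have b00 := sq _ a00
  have b01 := sq _ a01
  have b10 := sq _ a10
  have b11 := sq _ a11
  have s1 : (1 / r) ^ 2 ≤ 18 := by
    have : (1 / r) ^ 2 = (1 / r * (-Real.sin θ)) ^ 2 + (1 / r * Real.cos θ) ^ 2 := by
      have e : (1 / r * (-Real.sin θ)) ^ 2 + (1 / r * Real.cos θ) ^ 2 =
        (1 / r) ^ 2 * (Real.sin θ ^ 2 + Real.cos θ ^ 2) := by ring
      rw [e, hsc, mul_one]
    linarith
  have s2 : r ^ 2 + (z.re / r) ^ 2 ≤ 18 := by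
    have : r ^ 2 + (z.re / r) ^ 2 = (r * Real.cos θ + z.re / r * (-Real.sin θ)) ^ 2 +
        (r * Real.sin θ + z.re / r * Real.cos θ) ^ 2 := by
      have e : (r * Real.cos θ + z.re / r * (-Real.sin θ)) ^ 2 +
        (r * Real.sin θ + z.re / r * Real.cos θ) ^ 2 =
        (r ^ 2 + (z.re / r) ^ 2) * (Real.sin θ ^ 2 + Real.cos θ ^ 2) := by ring
      rw [e, hsc, mul_one]
    linarith
  have y1 : 1 ≤ 18 * z.im := by
    rw [← hrr]
    have e : (1 / r) ^ 2 * (r * r) = 1 := by field_simp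
    nlinarith [mul_pos hr0 hr0]
  have y2 : z.im ≤ 18 := by
    rw [← hrr]
    nlinarith [sq_nonneg (z.re / r)]
  have x1 : z.re ^ 2 ≤ 324 := by
    have e : (z.re / r) ^ 2 * (r * r) = z.re ^ 2 := by field_simp
    have e2 : (z.re / r) ^ 2 ≤ 18 := by nlinarith [sq_nonneg r]
    have e3 : (z.re / r) ^ 2 * (r * r) ≤ 18 * (r * r) :=
      mul_le_mul_of_nonneg_right e2 (mul_pos hr0 hr0).le
    nlinarith
  refine ⟨⟨by linarith, y2, abs_le.2 ⟨by nlinarith, by nlinarith⟩⟩, ?_⟩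
  have hτ : 0 ≤ ρ := (abs_nonneg _).trans h2
  have e1 : |1 / r * (-Real.sin θ)| = |Real.sin θ| / r := by
    rw [abs_mul, abs_neg, abs_of_pos (by positivity)]
    ring
  rw [e1, div_le_iff₀ hr0] at h2
  have r3 : r ≤ 5 := by
    by_contra hc
    push Not at hc
    nlinarith
  nlinarith

theorem HDV_sec (z : ℍ) : toSL2R z = aM (Real.log z.im) * nM (z.re / z.im) := by
  have hy : 0 < z.im := z.im_pos
  have e1 : Real.exp (Real.log z.im / 2) = √z.im := by
    rw [Real.sqrt_eq_rpow, Real.rpow_def_of_pos hy]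
    congr 1
    ring
  have e2 : Real.exp (-(Real.log z.im / 2)) = 1 / √z.im := by
    rw [Real.exp_neg, e1, one_div]
  apply Subtype.ext
  show !![√z.im, z.re / √z.im; 0, 1 / √z.im] =
    !![Real.exp (Real.log z.im / 2), 0; 0, Real.exp (-(Real.log z.im / 2))] * !![1, z.re / z.im; 0, 1]
  rw [e1, e2]
  have h1 : √z.im * (z.re / z.im) = z.re / √z.im := by
    have hs : √z.im * √z.im = z.im := Real.mul_self_sqrt hy.le
    have hs0 : √z.im ≠ 0 := (Real.sqrt_pos.2 hy).ne'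
    field_simp
    linear_combination z.re * hs
  ext i j
  fin_cases i <;> fin_cases j <;> simp [Matrix.mul_apply, Fin.sum_univ_two, h1]

theorem HDV_inv (hGLC : GLC_stmt) (z : ℍ) : (toSL2R z)⁻¹ = nM (-(z.re / z.im)) * aM (-Real.log z.im) := by
  obtain ⟨-, -, -, -, -, -, -, -, -, -, ha, hn, -⟩ := hGLC
  have ha0 : aM 0 = 1 := by
    have h := ha 0 0
    rw [add_zero] at h
    exact (mul_eq_left.1 h.symm)
  have hn0 : nM 0 = 1 := by
    have h := hn 0 0
    rw [add_zero] at h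
    exact (mul_eq_left.1 h.symm)
  rw [HDV_sec, mul_inv_rev]
  have h1 : (nM (z.re / z.im))⁻¹ = nM (-(z.re / z.im)) := by
    rw [inv_eq_iff_mul_eq_one, ← hn, add_neg_cancel, hn0]
  have h2 : (aM (Real.log z.im))⁻¹ = aM (-Real.log z.im) := by
    rw [inv_eq_iff_mul_eq_one, ← ha, add_neg_cancel, ha0]
  rw [h1, h2]

theorem HDV_shift (hGLC : GLC_stmt) (h : ℍ → ℝ) (hh : Continuous h) (h01 : ∀ z, 0 ≤ h z ∧ h z ≤ 1) (T l : ℝ)
    (g : SL(2, ℝ)) : HDV_E h T g ≤ HDV_E h T (g * aM (-l)) + |l| := by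
  have ha : ∀ s t, aM (s + t) = aM s * aM t := hGLC.2.2.2.2.2.2.2.2.2.2.1
  have hac : Continuous aM := hGLC.2.2.2.1
  set φ : ℝ → ℝ := fun s => h ((g * aM (-s)) • I) with hφ
  have hc : Continuous φ := hh.comp ((continuous_const.mul (hac.comp continuous_neg)).smul continuous_const)
  have h1 : HDV_E h T (g * aM (-l)) = ∫ s in l..(T + l), φ s := by
    have h2 : HDV_E h T (g * aM (-l)) = ∫ t in (0 : ℝ)..T, φ (t + l) := by
      refine intervalIntegral.integral_congr fun t _ => ?_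
      show h ((g * aM (-l) * aM (-t)) • I) = h ((g * aM (-(t + l))) • I)
      rw [mul_assoc, ← ha]
      have h3 : -l + -t = -(t + l) := by ring
      rw [h3]
    rw [h2, intervalIntegral.integral_comp_add_right (fun s => φ s) l, zero_add]
  have hi : ∀ a b : ℝ, IntervalIntegrable φ volume a b := fun a b => hc.intervalIntegrable a b
  have h4 : HDV_E h T g = (∫ s in (0 : ℝ)..l, φ s) + (∫ s in l..(T + l), φ s) + ∫ s in (T + l)..T, φ s := by
    rw [intervalIntegral.integral_add_adjacent_intervals (hi _ _) (hi _ _),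
      intervalIntegral.integral_add_adjacent_intervals (hi _ _) (hi _ _)]
    rfl
  have hlo : ∀ a b : ℝ, a ≤ b → 0 ≤ ∫ s in a..b, φ s := fun a b hab =>
    intervalIntegral.integral_nonneg hab fun s _ => (h01 _).1
  have hup : ∀ a b : ℝ, a ≤ b → ∫ s in a..b, φ s ≤ b - a := by
    intro a b hab
    have h5 := intervalIntegral.integral_mono_on hab (hi a b) (continuous_const.intervalIntegrable (u := fun _ : ℝ => (1 : ℝ)) a b)
      (fun s _ => (h01 _).2)
    rw [intervalIntegral.integral_const, smul_eq_mul, mul_one] at h5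
    exact h5
  rw [h4, h1]
  rcases le_total 0 l with hl | hl
  · rw [abs_of_nonneg hl]
    have h6 := hup 0 l hl
    have h7 := hlo T (T + l) (by linarith)
    rw [intervalIntegral.integral_symm T (T + l)]
    linarith
  · rw [abs_of_nonpos hl]
    have h6 := hup (T + l) T (by linarith)
    have h7 := hlo l 0 hl
    rw [intervalIntegral.integral_symm l 0]
    linarith

/-! ## Volumes -/

theorem HDV_sub (s θ : ℝ) (h : |Real.sin θ| ≤ s) (hθ : θ ∈ Ioc (0 : ℝ) (2 * Real.pi)) :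
    θ ∈ (Icc (0 : ℝ) (Real.pi / 2 * s) ∪ Icc (Real.pi - Real.pi / 2 * s) (Real.pi + Real.pi / 2 * s))
      ∪ Icc (2 * Real.pi - Real.pi / 2 * s) (2 * Real.pi) := by
  have hp := Real.pi_pos
  have key : ∀ φ : ℝ, |φ| ≤ Real.pi / 2 → |Real.sin φ| ≤ s → |φ| ≤ Real.pi / 2 * s := by
    intro φ h1 h2
    have h3 := Real.mul_abs_le_abs_sin h1
    have h4 : 2 / Real.pi * |φ| ≤ s := h3.trans h2
    have h5 : |φ| = Real.pi / 2 * (2 / Real.pi * |φ|) := by
      field_simp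
    rw [h5]
    exact mul_le_mul_of_nonneg_left h4 (by positivity)
  obtain ⟨h0, h1⟩ := hθ
  by_cases c1 : θ ≤ Real.pi / 2
  · left; left
    have h2 := key θ (by rw [abs_of_pos h0]; exact c1) h
    rw [abs_of_pos h0] at h2
    exact ⟨h0.le, h2⟩
  · by_cases c2 : θ ≤ 3 * Real.pi / 2
    · left; right
      push Not at c1
      have h2 : |θ - Real.pi| ≤ Real.pi / 2 := abs_le.2 ⟨by linarith, by linarith⟩
      have h3 : |Real.sin (θ - Real.pi)| ≤ s := by
        rw [Real.sin_sub_pi, abs_neg]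
        exact h
      have h4 := abs_le.1 (key _ h2 h3)
      exact ⟨by linarith [h4.1], by linarith [h4.2]⟩
    · right
      push Not at c2
      have h2 : |θ - 2 * Real.pi| ≤ Real.pi / 2 := abs_le.2 ⟨by linarith, by linarith⟩
      have h3 : |Real.sin (θ - 2 * Real.pi)| ≤ s := by
        rw [Real.sin_sub_two_pi]
        exact h
      have h4 := abs_le.1 (key _ h2 h3)
      exact ⟨by linarith [h4.1], h1⟩

theorem HDV_sin (s : ℝ) (hs : 0 ≤ s) :
    (volume : Measure ℝ) ({θ : ℝ | |Real.sin θ| ≤ s} ∩ Ioc 0 (2 * Real.pi)) ≤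
      ENNReal.ofReal (2 * Real.pi * s) := by
  have hp := Real.pi_pos
  have h1 : ({θ : ℝ | |Real.sin θ| ≤ s} ∩ Ioc 0 (2 * Real.pi)) ⊆
      (Icc (0 : ℝ) (Real.pi / 2 * s) ∪ Icc (Real.pi - Real.pi / 2 * s) (Real.pi + Real.pi / 2 * s))
      ∪ Icc (2 * Real.pi - Real.pi / 2 * s) (2 * Real.pi) := fun θ h => HDV_sub s θ h.1 h.2
  refine (measure_mono h1).trans ((measure_union_le _ _).trans
    ((add_le_add_left (measure_union_le _ _) _).trans ?_))
  rw [Real.volume_Icc, Real.volume_Icc, Real.volume_Icc, ← ENNReal.ofReal_add (by nlinarith) (by nlinarith),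
    ← ENNReal.ofReal_add (by nlinarith) (by nlinarith)]
  refine ENNReal.ofReal_le_ofReal ?_
  nlinarith

theorem HDV_line (U : Set ℝ) (K : ℝ) (hU : volume (U ∩ Ioc (-325 : ℝ) (-325 + (650 : ℕ))) ≤ ENNReal.ofReal K) (y : ℝ)
    (hy1 : 1 / 18 ≤ y) (hy2 : y ≤ 18) : volume {x : ℝ | |x| ≤ 18 ∧ -(x / y) ∈ U} ≤ ENNReal.ofReal (18 * K) := by
  have hy0 : 0 < y := by linarith
  have h1 : {x : ℝ | |x| ≤ 18 ∧ -(x / y) ∈ U} ⊆ (fun x => (-y⁻¹) * x) ⁻¹' (U ∩ Ioc (-325 : ℝ) (-325 + (650 : ℕ))) := by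
    rintro x ⟨hx, hxU⟩
    have h2 : (-y⁻¹) * x = -(x / y) := by rw [div_eq_mul_inv]; ring
    show (-y⁻¹) * x ∈ U ∩ Ioc (-325 : ℝ) (-325 + (650 : ℕ))
    rw [h2]
    refine ⟨hxU, ?_⟩
    have h3 : |x / y| ≤ 324 := by
      rw [abs_div, abs_of_pos hy0, div_le_iff₀ hy0]
      nlinarith
    obtain ⟨h4, h5⟩ := abs_le.1 h3
    push_cast
    exact ⟨by linarith, by linarith⟩
  refine (measure_mono h1).trans ?_
  rw [Real.volume_preimage_mul_left (neg_ne_zero.2 (inv_ne_zero hy0.ne'))]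
  have h6 : |(-y⁻¹)⁻¹| = y := by
    rw [inv_neg, inv_inv, abs_neg, abs_of_pos hy0]
  rw [h6, ENNReal.ofReal_mul (by norm_num)]
  exact mul_le_mul' (ENNReal.ofReal_le_ofReal hy2) hU

theorem HDV_area (U : Set ℝ) (hUm : MeasurableSet U) (K : ℝ)
    (hU : volume (U ∩ Ioc (-325 : ℝ) (-325 + (650 : ℕ))) ≤ ENNReal.ofReal K) :
    volume {w : ℂ | 1 / 18 ≤ w.im ∧ w.im ≤ 18 ∧ |w.re| ≤ 18 ∧ -(w.re / w.im) ∈ U} ≤
      ENNReal.ofReal (18 * K) * ENNReal.ofReal 18 := by
  set W : Set (ℝ × ℝ) := {p : ℝ × ℝ | 1 / 18 ≤ p.2 ∧ p.2 ≤ 18 ∧ |p.1| ≤ 18 ∧ -(p.1 / p.2) ∈ U} with hW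
  have hWm : MeasurableSet W := by
    refine (measurableSet_le measurable_const measurable_snd).inter
      ((measurableSet_le measurable_snd measurable_const).inter
        ((measurableSet_le (continuous_fst.abs).measurable measurable_const).inter ?_))
    exact (measurable_fst.div measurable_snd).neg hUm
  have h1 : volume (Complex.measurableEquivRealProd ⁻¹' W) = volume W :=
    Complex.volume_preserving_equiv_real_prod.measure_preimage_equiv W
  have h2 : {w : ℂ | 1 / 18 ≤ w.im ∧ w.im ≤ 18 ∧ |w.re| ≤ 18 ∧ -(w.re / w.im) ∈ U} =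
      Complex.measurableEquivRealProd ⁻¹' W := rfl
  rw [h2, h1, Measure.volume_eq_prod, Measure.prod_apply_symm hWm]
  have h3 : ∀ y : ℝ, volume ((fun x : ℝ => (x, y)) ⁻¹' W) ≤
      (Icc (1 / 18 : ℝ) 18).indicator (fun _ => ENNReal.ofReal (18 * K)) y := by
    intro y
    by_cases hy : y ∈ Icc (1 / 18 : ℝ) 18
    · rw [Set.indicator_of_mem hy]
      refine (measure_mono ?_).trans (HDV_line U K hU y hy.1 hy.2)
      rintro x ⟨-, -, hx1, hx2⟩
      exact ⟨hx1, hx2⟩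
    · rw [Set.indicator_of_notMem hy]
      have h4 : (fun x : ℝ => (x, y)) ⁻¹' W = ∅ := by
        refine Set.eq_empty_of_forall_notMem ?_
        rintro x ⟨hx1, hx2, -, -⟩
        exact hy ⟨hx1, hx2⟩
      rw [h4, measure_empty]
  refine (lintegral_mono h3).trans ?_
  rw [lintegral_indicator measurableSet_Icc, setLIntegral_const, Real.volume_Icc]
  exact mul_le_mul_right (ENNReal.ofReal_le_ofReal (by norm_num)) _

theorem HDV_vol (U : Set ℝ) (hUm : MeasurableSet U) (K : ℝ)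
    (hU : volume (U ∩ Ioc (-325 : ℝ) (-325 + (650 : ℕ))) ≤ ENNReal.ofReal K) (A : Set ℍ)
    (hA : ∀ z ∈ A, (1 / 18 ≤ z.im ∧ z.im ≤ 18 ∧ |z.re| ≤ 18) ∧ -(z.re / z.im) ∈ U) :
    volume A ≤ ENNReal.ofReal (324 * (324 * K)) := by
  set W : Set ℂ := {w : ℂ | 1 / 18 ≤ w.im ∧ w.im ≤ 18 ∧ |w.re| ≤ 18 ∧ -(w.re / w.im) ∈ U} with hW
  have hWm : MeasurableSet W := by
    refine (measurableSet_le measurable_const Complex.measurable_im).inter
      ((measurableSet_le Complex.measurable_im measurable_const).inter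
        ((measurableSet_le (Complex.continuous_re.abs).measurable measurable_const).inter ?_))
    exact (Complex.measurable_re.div Complex.measurable_im).neg hUm
  have hsub : UpperHalfPlane.coe '' A ⊆ W := by
    rintro w ⟨z, hz, rfl⟩
    obtain ⟨⟨h1, h2, h3⟩, h4⟩ := hA z hz
    exact ⟨h1, h2, h3, h4⟩
  rw [volume_eq_lintegral]
  refine (lintegral_mono_set hsub).trans ?_
  have h5 : ∀ w ∈ W, (((1 / ‖w.im‖₊) ^ 2 : NNReal) : ENNReal) ≤ 324 := by
    rintro w ⟨h1, -, -, -⟩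
    have h6 : (1 / ‖w.im‖₊) ^ 2 ≤ (324 : NNReal) := by
      rw [← NNReal.coe_le_coe]
      push_cast
      rw [Real.norm_eq_abs, abs_of_pos (by linarith : (0 : ℝ) < w.im)]
      have h7 : 1 / w.im ≤ 18 := by
        rw [div_le_iff₀ (by linarith)]
        linarith
      have h8 : 0 ≤ 1 / w.im := by
        apply div_nonneg zero_le_one
        linarith
      nlinarith
    exact_mod_cast h6
  refine (setLIntegral_mono' hWm h5).trans ?_
  rw [setLIntegral_const]
  refine (mul_le_mul_right (HDV_area U hUm K hU) _).trans ?_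
  rw [← ENNReal.ofReal_mul' (by norm_num), ← ENNReal.ofReal_ofNat 324, ← ENNReal.ofReal_mul (by norm_num)]
  refine ENNReal.ofReal_le_ofReal (le_of_eq ?_)
  ring

/-! ## The theorem -/

theorem HDV_meas (hGLC : GLC_stmt) (h : ℍ → ℝ) (hh : Continuous h) (T ρ q : ℝ) (g : SL(2, ℝ)) :
    MeasurableSet {k : SL(2, ℝ) | (∀ i j, |k.1 i j| ≤ 3) ∧ |k.1 1 0| ≤ ρ ∧ g * k⁻¹ ∈ Dn h q T} := by
  have hc : ∀ i j : Fin 2, Continuous fun h : SL(2, ℝ) => |h.1 i j| := fun i j =>
    ((continuous_apply j).comp ((continuous_apply i).comp continuous_subtype_val)).abs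
  have h1 : {k : SL(2, ℝ) | (∀ i j, |k.1 i j| ≤ 3) ∧ |k.1 1 0| ≤ ρ ∧ g * k⁻¹ ∈ Dn h q T} =
      (⋂ i : Fin 2, ⋂ j : Fin 2, {h : SL(2, ℝ) | |h.1 i j| ≤ 3}) ∩ ({h : SL(2, ℝ) | |h.1 1 0| ≤ ρ} ∩
        {k : SL(2, ℝ) | HDV_E h T (g * k⁻¹) < q * T}) := by
    ext k
    simp only [Set.mem_inter_iff, Set.mem_iInter, Set.mem_ofPred_eq]
    exact Iff.rfl
  rw [h1]
  refine (MeasurableSet.iInter fun i => MeasurableSet.iInter fun j =>
    (isClosed_le (hc i j) continuous_const).measurableSet).inter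
    ((isClosed_le (hc 1 0) continuous_const).measurableSet.inter ?_)
  exact (isOpen_lt ((HDV_cont hGLC h hh T).comp (continuous_const.mul continuous_inv)) continuous_const).measurableSet

theorem HDV_main (hGLC : GLC_stmt) (hGMG : GMG_stmt) (h : ℍ → ℝ) (hh : Continuous h) (h01 : ∀ z, 0 ≤ h z ∧ h z ≤ 1)
    (T ρ q K : ℝ) (g : SL(2, ℝ)) (hρ : 0 < ρ)
    (hK : ∀ g' : SL(2, ℝ), volume ({u : ℝ | HDV_E h T (g' * nM u) ≤ q * T + 3} ∩ Ioc (-325 : ℝ) (-325 + (650 : ℕ))) ≤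
      ENNReal.ofReal K) (hK0 : 0 ≤ K) :
    mG {k : SL(2, ℝ) | (∀ i j, |k.1 i j| ≤ 3) ∧ |k.1 1 0| ≤ ρ ∧ g * k⁻¹ ∈ Dn h q T} ≤
      ENNReal.ofReal (324 * (324 * K) * (5 * ρ)) := by
  haveI := hGLC.1
  haveI := hGLC.2.1
  have hnc : Continuous nM := hGLC.2.2.2.2.1
  have hkc : Continuous kM := hGLC.2.2.2.2.2.2.1
  set S : Set SL(2, ℝ) := {k : SL(2, ℝ) | (∀ i j, |k.1 i j| ≤ 3) ∧ |k.1 1 0| ≤ ρ ∧ g * k⁻¹ ∈ Dn h q T} with hS
  have hSm : MeasurableSet S := HDV_meas hGLC h hh T ρ q g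
  have hsf : SFinite (volume : Measure ℍ) := by
    have hm : Measurable fun g : SL(2, ℝ) => (g • I : ℍ) := (continuous_id.smul continuous_const).measurable
    have e : (volume : Measure ℍ) = Measure.map (fun g : SL(2, ℝ) => (g • I : ℍ)) mG := by
      ext A hA
      rw [Measure.map_apply hm hA]
      exact (hGMG.1 A hA).2.symm
    rw [e]
    haveI := hGMG.2.2.1
    infer_instance
  have hφ : Measurable fun p : ℍ × ℝ => toSL2R p.1 * kM p.2 :=
    ((continuous_toSL2R.comp continuous_fst).mul (hkc.comp continuous_snd)).measurable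
  have hfm : Measurable (Function.uncurry fun (z : ℍ) (θ : ℝ) => S.indicator (1 : SL(2, ℝ) → ENNReal) (toSL2R z * kM θ)) :=
    (measurable_one.indicator hSm).comp hφ
  rw [← lintegral_indicator_one hSm, hGMG.2.2.2.1 _ (measurable_one.indicator hSm)]
  have hfm2 : Measurable fun z : ℍ => ∫⁻ θ in Ioc 0 (2 * Real.pi), S.indicator (1 : SL(2, ℝ) → ENNReal) (toSL2R z * kM θ) :=
    Measurable.lintegral_prod_right' hfm
  rw [lintegral_const_mul _ hfm2, lintegral_lintegral_swap hfm.aemeasurable]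
  have hSs : MeasurableSet {θ : ℝ | |Real.sin θ| ≤ 5 * ρ} :=
    (isClosed_le Real.continuous_sin.abs continuous_const).measurableSet
  have hin : ∀ θ : ℝ, ∫⁻ z : ℍ, S.indicator (1 : SL(2, ℝ) → ENNReal) (toSL2R z * kM θ) ≤
      {θ : ℝ | |Real.sin θ| ≤ 5 * ρ}.indicator (fun _ => ENNReal.ofReal (324 * (324 * K))) θ := by
    intro θ
    by_cases hθ : |Real.sin θ| ≤ 5 * ρ
    · rw [Set.indicator_of_mem (show θ ∈ {θ : ℝ | |Real.sin θ| ≤ 5 * ρ} from hθ)]
      have hAm : MeasurableSet {z : ℍ | toSL2R z * kM θ ∈ S} :=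
        (hφ.comp (measurable_id.prodMk measurable_const)) hSm
      have h1 : ∀ z : ℍ, S.indicator (1 : SL(2, ℝ) → ENNReal) (toSL2R z * kM θ) =
          {z : ℍ | toSL2R z * kM θ ∈ S}.indicator (1 : ℍ → ENNReal) z := by
        intro z
        by_cases hz : toSL2R z * kM θ ∈ S
        · rw [Set.indicator_of_mem hz, Set.indicator_of_mem (show z ∈ {z : ℍ | toSL2R z * kM θ ∈ S} from hz)]
          rfl
        · rw [Set.indicator_of_notMem hz, Set.indicator_of_notMem (show z ∉ {z : ℍ | toSL2R z * kM θ ∈ S} from hz)]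
      simp only [h1]
      rw [lintegral_indicator_one hAm]
      refine HDV_vol {u : ℝ | HDV_E h T (g * (kM θ)⁻¹ * nM u) ≤ q * T + 3} ?_ K (hK (g * (kM θ)⁻¹)) _ ?_
      · exact (isClosed_le ((HDV_cont hGLC h hh T).comp (continuous_const.mul hnc)) continuous_const).measurableSet
      · rintro z ⟨h2, h3, h4⟩
        have h5 := (HDV_mem z θ ρ h2 h3).1
        refine ⟨h5, ?_⟩
        have h6 : HDV_E h T (g * (toSL2R z * kM θ)⁻¹) < q * T := h4
        rw [mul_inv_rev, HDV_inv hGLC, ← mul_assoc, ← mul_assoc] at h6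
        have h7 := HDV_shift hGLC h hh h01 T (Real.log z.im) (g * (kM θ)⁻¹ * nM (-(z.re / z.im)))
        have h8 : |Real.log z.im| ≤ 3 := by
          have he : (18 : ℝ) ≤ Real.exp 3 := by
            have h9 := Real.exp_one_gt_d9
            have h10 : Real.exp 3 = Real.exp 1 * Real.exp 1 * Real.exp 1 := by
              rw [← Real.exp_add, ← Real.exp_add]
              norm_num
            rw [h10]
            nlinarith [mul_pos (Real.exp_pos 1) (Real.exp_pos 1)]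
          have hl18 : Real.log 18 ≤ 3 := by
            rw [Real.log_le_iff_le_exp (by norm_num)]
            exact he
          refine abs_le.2 ⟨?_, ?_⟩
          · have h11 := Real.log_le_log (by norm_num) h5.1
            rw [one_div, Real.log_inv] at h11
            linarith
          · exact (Real.log_le_log z.im_pos h5.2.1).trans hl18
        show HDV_E h T (g * (kM θ)⁻¹ * nM (-(z.re / z.im))) ≤ q * T + 3
        linarith
    · rw [Set.indicator_of_notMem (show θ ∉ {θ : ℝ | |Real.sin θ| ≤ 5 * ρ} from hθ)]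
      have h1 : ∀ z : ℍ, S.indicator (1 : SL(2, ℝ) → ENNReal) (toSL2R z * kM θ) = 0 := by
        intro z
        refine Set.indicator_of_notMem (fun hm => hθ (HDV_mem z θ ρ hm.1 hm.2.1).2) _
      simp only [h1, lintegral_zero]
      exact le_rfl
  have h12 : ∫⁻ θ in Ioc 0 (2 * Real.pi), ∫⁻ z : ℍ, S.indicator (1 : SL(2, ℝ) → ENNReal) (toSL2R z * kM θ) ≤
      ENNReal.ofReal (324 * (324 * K)) * ENNReal.ofReal (2 * Real.pi * (5 * ρ)) := by
    refine (lintegral_mono hin).trans ?_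
    rw [lintegral_indicator hSs, setLIntegral_const, Measure.restrict_apply hSs]
    exact mul_le_mul_right (HDV_sin (5 * ρ) (by positivity)) _
  refine (mul_le_mul_right h12 _).trans ?_
  have h3 : ENNReal.ofReal (2 * Real.pi) ≠ 0 := by
    rw [Ne, ENNReal.ofReal_eq_zero, not_le]
    have := Real.pi_pos
    positivity
  have hp := Real.pi_pos
  rw [ENNReal.ofReal_mul (p := 2 * Real.pi) (q := 5 * ρ) (by positivity), mul_left_comm, ← mul_assoc (ENNReal.ofReal (2 * Real.pi))⁻¹,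
    ENNReal.inv_mul_cancel h3 ENNReal.ofReal_ne_top, one_mul, ← ENNReal.ofReal_mul (by positivity)]

/-- **Row HDV** -/
theorem HDV_proof (hQEX : QEX_stmt) (hGLC : GLC_stmt) (hGMG : GMG_stmt) : HDV_stmt := by
  intro Γ F h ε hΓ hF hh h01 hε
  have hneg : QU.Inv Γ (fun z => -h z) := ⟨hh.1.neg, fun γ z => by
    show -h (γ • z) = -h z
    rw [hh.2 γ z]⟩
  obtain ⟨θ0, C0, hθ0, hC0, hQ⟩ := hQEX Γ F (fun z => -h z) (ε / 2) hΓ hF hneg (half_pos hε)
  set μ : ℝ := (∫ z in F, h z) / (volume F).toReal with hμ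
  have hm : (∫ z in F, (fun z => -h z) z) / (volume F).toReal = -μ := by
    show (∫ z in F, -h z) / (volume F).toReal = -μ
    rw [integral_neg, neg_div]
  rw [hm] at hQ
  refine ⟨θ0 * ε / 2, 324 * (324 * (Real.exp (θ0 * 3) * (650 * C0))) * 5, by positivity, by positivity, ?_⟩
  intro T ρ g hT hρ
  set B : ℝ := C0 * Real.exp (θ0 * (-μ + ε / 2) * T) with hB
  have hcont := HDV_cont hGLC h hh.1 T
  have hnc : Continuous nM := hGLC.2.2.2.2.1
  have h1 : ∀ g' : SL(2, ℝ), volume ({u : ℝ | HDV_E h T (g' * nM u) ≤ (μ - ε) * T + 3} ∩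
      Ioc (-325 : ℝ) (-325 + (650 : ℕ))) ≤ ENNReal.ofReal (Real.exp (θ0 * ((μ - ε) * T + 3)) * ((650 : ℕ) * B)) := by
    intro g'
    refine HDV_cheb (fun u => HDV_E h T (g' * nM u)) (hcont.comp (continuous_const.mul hnc)) θ0 _ B (-325) 650 hθ0.le ?_
    intro a
    exact HDV_unit hGLC h θ0 T B (fun g'' => hQ T g'' hT) g' a
  refine (HDV_main hGLC hGMG h hh.1 h01 T ρ (μ - ε) _ g hρ h1 (by positivity)).trans ?_
  refine ENNReal.ofReal_le_ofReal (le_of_eq ?_)
  have h2 : Real.exp (θ0 * ((μ - ε) * T + 3)) * Real.exp (θ0 * (-μ + ε / 2) * T) =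
      Real.exp (θ0 * 3) * Real.exp (-(θ0 * ε / 2 * T)) := by
    rw [← Real.exp_add, ← Real.exp_add]
    congr 1
    ring
  rw [hB]
  push_cast
  linear_combination (324 * 324 * 650 * C0 * 5 * ρ) * h2

end Pool.Agent.MS
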